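import Mathlib

set_option autoImplicit false

namespace Pool.Agent.Results.MP_42b5d3_al.Yes

open Function

/-- every epimorphism from a submodule of a finitely generated left module onto it is bijective -/
def LeftBasic (R : Type) [Ring R] : Prop :=
  ∀ (M : Type) [AddCommGroup M] [Module R M] [Module.Finite R M] (N : Submodule R M)
    (f : N →ₗ[R] M), Surjective f → Bijective f

/-- every finite subset lies in a left and right noetherian subring -/
def FNoetherian (R : Type) [Ring R] : Prop :=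
  ∀ X : Set R, X.Finite → ∃ S : Subring R, X ⊆ S ∧ IsNoetherianRing S ∧ IsNoetherianRing Sᵐᵒᵖ

lemma basic_of {S : Type} [Ring S] (H : ∀ X : Set S, X.Finite → ∃ (D T : Subring S) (n : ℕ)
    (G : Fin n → S), (∀ x ∈ D, ∀ y ∈ D, x * y = y * x) ∧ X ⊆ T ∧ (∀ j, G j ∈ T) ∧
    ∀ s ∈ T, ∃ d : Fin n → S, (∀ j, d j ∈ D) ∧ s = ∑ j, d j * G j) : LeftBasic S := by
  intro M _ _ _ N f hf
  refine ⟨(injective_iff_map_eq_zero f).2 fun v hv => ?_, hf⟩
  obtain ⟨k, m, hm⟩ := Module.Finite.exists_fin (R := S) (M := M)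
  choose c hc using fun y : M => (Submodule.mem_span_range_iff_exists_fun S).1
    (hm ▸ Submodule.mem_top : y ∈ Submodule.span S (Set.range m))
  choose m' hm' using fun i => hf (m i)
  obtain ⟨D, T, n, G, h1, h2, h3, h4⟩ := H _ (Set.finite_range fun p : Option (Fin k) × Fin k =>
    c (p.1.elim v m' : N) p.2)
  let _ : CommRing D := { (inferInstance : Ring D) with
    mul_comm := fun x y => Subtype.ext (h1 _ x.2 _ y.2) }
  let M1 := Submodule.span D (Set.range fun p : Fin n × Fin k => G p.1 • m p.2)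
  have : Module.Finite D M1 := Module.Finite.span_of_finite D (Set.finite_range _)
  have a : ∀ s ∈ T, ∀ i, s • m i ∈ M1 := fun s hs i => by
    obtain ⟨d, d1, rfl⟩ := h4 s hs
    rw [Finset.sum_smul]
    exact sum_mem fun j _ => mul_smul (d j) (G j) (m i) ▸
      M1.smul_mem (⟨d j, d1 j⟩ : D) (Submodule.subset_span ⟨(j, i), rfl⟩)
  have b : ∀ s ∈ T, ∀ o : Option (Fin k), s • ((o.elim v m' : N) : M) ∈ M1 := fun s hs o => by
    rw [← hc ((o.elim v m' : N) : M), Finset.smul_sum]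
    exact sum_mem fun i _ => smul_smul s _ (m i) ▸ a _ (T.mul_mem hs (h2 ⟨(o, i), rfl⟩)) i
  let i' := N.subtype.restrictScalars D
  let f' := f.restrictScalars D
  let N1 := M1.comap i' ⊓ M1.comap f'
  have key := OrzechProperty.injective_of_surjective_of_injective (R := D)
    (i'.restrict (p := N1) (q := M1) fun x hx => hx.1) (f'.restrict (p := N1) (q := M1) fun x hx => hx.2)
    (fun x y e => Subtype.ext (Subtype.ext (congrArg (Subtype.val : M1 → M) e))) (by
      rintro ⟨y, hy⟩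
      suffices ∃ x ∈ N1, f' x = y by
        obtain ⟨x, x1, x2⟩ := this
        exact ⟨⟨x, x1⟩, Subtype.ext x2⟩
      refine (Submodule.span_le (p := N1.map f')).2 ?_ hy
      rintro _ ⟨⟨j, i⟩, rfl⟩
      have e : f (G j • m' i) = G j • m i := by rw [map_smul, hm']
      exact ⟨G j • m' i, ⟨b _ (h3 j) (some i), show f _ ∈ M1 from e ▸ a _ (h3 j) i⟩, e⟩)
  have hv1 : v ∈ N1 := ⟨show (v : M) ∈ M1 by simpa using b 1 T.one_mem none, show f v ∈ M1 from hv ▸ M1.zero_mem⟩
  exact congrArg Subtype.val (key (a₁ := ⟨v, hv1⟩) (a₂ := 0) (Subtype.ext (hv.trans (map_zero f).symm)))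

abbrev C : Type := MvPolynomial ℤ ℤ

structure Tri {S : Type} [Ring S] (A B : Subring C) (p q : S →+* C) (k : S →+ C) : Prop where
  mul : ∀ s t, k (s * t) = p s * k t + k s * q t
  inj : ∀ s t, p s = p t → k s = k t → q s = q t → s = t
  hp : ∀ s, p s ∈ A
  hq : ∀ s, q s ∈ B
  ex : ∀ a ∈ A, ∀ c, ∀ b ∈ B, ∃ s, p s = a ∧ k s = c ∧ q s = b

lemma Tri.basic {S : Type} [Ring S] {A B : Subring C} {p q : S →+* C} {k : S →+ C}
    (h : Tri A B p q k) (hA : ∀ c : C, IsIntegral A c) : LeftBasic S := by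
  have k1 : k 1 = 0 := by simpa using h.mul 1 1
  refine basic_of fun X hX => ?_
  let E := Algebra.adjoin A (k '' X ∪ q '' X)
  obtain ⟨n, g, hg⟩ := Submodule.fg_iff_exists_fin_generating_family.1
    (fg_adjoin_of_finite ((hX.image k).union (hX.image q)) fun x _ => hA x)
  have pE : ∀ s, p s ∈ E := fun s => E.algebraMap_mem ⟨_, h.hp s⟩
  choose G G1 G2 G3 using fun j => h.ex 0 A.zero_mem (g j) 0 B.zero_mem
  let T : Subring S :=
    { carrier := {s | k s ∈ E ∧ q s ∈ E}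
      mul_mem' := fun {s t} a b => ⟨h.mul s t ▸ add_mem (mul_mem (pE s) b.1) (mul_mem a.1 b.2),
        map_mul q s t ▸ mul_mem a.2 b.2⟩
      one_mem' := ⟨k1 ▸ zero_mem _, map_one q ▸ one_mem _⟩
      add_mem' := fun {s t} a b => ⟨map_add k s t ▸ add_mem a.1 b.1, map_add q s t ▸ add_mem a.2 b.2⟩
      zero_mem' := ⟨map_zero k ▸ zero_mem _, map_zero q ▸ zero_mem _⟩
      neg_mem' := fun {s} a => ⟨map_neg k s ▸ neg_mem a.1, map_neg q s ▸ neg_mem a.2⟩ }
  let D : Subring S :=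
    { carrier := {s | k s = 0}
      mul_mem' := fun {s t} (a : k s = 0) (b : k t = 0) => by simp [h.mul, a, b]
      one_mem' := k1
      add_mem' := fun {s t} (a : k s = 0) (b : k t = 0) => by simp [a, b]
      zero_mem' := map_zero k
      neg_mem' := fun {s} (a : k s = 0) => by simp [a] }
  have hG : ∀ j, G j ∈ T := fun j => by
    show k (G j) ∈ E.toSubmodule ∧ q (G j) ∈ E
    rw [G2, G3, ← hg]; exact ⟨Submodule.subset_span ⟨j, rfl⟩, zero_mem _⟩
  refine ⟨D, T, n + 1, Fin.cons 1 G, fun x (a : k x = 0) y (b : k y = 0) => h.inj _ _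
    (by simp [mul_comm]) (by simp [h.mul, a, b]) (by simp [mul_comm]), fun x hx =>
    ⟨Algebra.subset_adjoin (Or.inl ⟨x, hx, rfl⟩), Algebra.subset_adjoin (Or.inr ⟨x, hx, rfl⟩)⟩,
    Fin.cases T.one_mem hG, fun s hs => ?_⟩
  · obtain ⟨c, hc⟩ := (Submodule.mem_span_range_iff_exists_fun A).1
      (hg ▸ hs.1 : k s ∈ Submodule.span A (Set.range g))
    choose d d1 d2 d3 using fun j => h.ex _ (c j).2 0 0 B.zero_mem
    obtain ⟨e, e1, e2, e3⟩ := h.ex _ (h.hp s) 0 _ (h.hq s)
    refine ⟨Fin.cons e d, Fin.cases e2 d2, h.inj _ _ ?_ ?_ ?_⟩ <;>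
      simp [Fin.sum_univ_succ, h.mul, ← hc, Subring.smul_def, *]

lemma integ {S : Type} [Ring S] [IsNoetherianRing S] (p q : S →+* C) (k : S →+ C)
    (mul : ∀ s t, k (s * t) = p s * k t + k s * q t) (u : S) (h1 : k u = 1) (h2 : p u = 0)
    (h3 : q u = 0) (b : S) : IsIntegral p.range (q b) := by
  obtain ⟨t, ht⟩ := IsNoetherian.noetherian (RingHom.ker q ⊓ RingHom.ker p : Submodule S S)
  let N := Submodule.span p.range (k '' t)
  have a : ∀ j ∈ (RingHom.ker q ⊓ RingHom.ker p : Submodule S S), k j ∈ N := fun j hj => by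
    rw [← ht] at hj
    induction hj using Submodule.span_induction with
    | mem x hx => exact Submodule.subset_span ⟨x, hx, rfl⟩
    | zero => simp
    | add x y _ _ hx hy => rw [map_add]; exact add_mem hx hy
    | smul s x hx' hx =>
      rw [ht] at hx'
      rw [smul_eq_mul, mul, show q x = 0 from hx'.1, mul_zero, add_zero]
      exact N.smul_mem (⟨p s, s, rfl⟩ : p.range) hx
  refine isIntegral_of_smul_mem_submodule N (fun e => ?_) (Submodule.fg_span (t.finite_toSet.image k))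
    _ fun n hn => ?_
  · simpa [e, h1] using a u ⟨h3, h2⟩
  · refine (Submodule.span_le (p := N.comap (LinearMap.mulLeft p.range (q b)))).2 ?_ hn
    rintro _ ⟨x, hx, rfl⟩
    have hx : x ∈ (RingHom.ker q ⊓ RingHom.ker p : Submodule S S) := ht ▸ Submodule.subset_span hx
    have e1 : q x = 0 := hx.1
    have e2 : p x = 0 := hx.2
    simpa [mul, e2, mul_comm] using a (x * b) ⟨by simp [RingHom.mem_ker, e1], by simp [RingHom.mem_ker, e2]⟩

lemma tr {A B : Subring C} (h : ∀ b ∈ B, IsIntegral A b) {x : C} (hx : IsIntegral B x) :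
    IsIntegral A x := by
  obtain ⟨P, h1, h2⟩ := hx
  refine isIntegral_trans (A := integralClosure A C) x
    ⟨P.map (B.subtype.codRestrict (integralClosure A C) fun b => h b b.2), h1.map _, ?_⟩
  rw [Polynomial.eval₂_map]; exact h2

lemma stab {A : Subring C} (σ : C →+* C) (h : ∀ a ∈ A, σ a = a) {x : C} (hx : IsIntegral A x) :
    IsIntegral A (σ x) := by
  obtain ⟨P, h1, h2⟩ := hx
  have := congrArg σ h2
  rw [Polynomial.hom_eval₂, map_zero] at this
  exact ⟨P, h1, by rwa [show σ.comp (algebraMap A C) = algebraMap A C from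
    RingHom.ext fun a => h a a.2] at this⟩

open Polynomial in
lemma quad {A : Subring C} {x y : C} (hs : x + y ∈ A) (hp : x * y ∈ A) : IsIntegral A x :=
  ⟨X ^ 2 - (Polynomial.C ⟨_, hs⟩ * X - Polynomial.C ⟨_, hp⟩), by monicity!, by
    simp only [eval₂_sub, eval₂_mul, eval₂_X, eval₂_C, eval₂_X_pow]
    show x ^ 2 - ((x + y) * x - x * y) = 0
    ring⟩

open MvPolynomial

noncomputable def σ (e : ℤ) : C →+* C := (rename fun n => e - n).toRingHom
lemma σσ (e : ℤ) (c : C) : σ e (σ e c) = c := by simp [σ, rename_rename]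
noncomputable def Fix (e : ℤ) : Subring C := (σ e).eqLocus (RingHom.id C)
lemma int_fix (e : ℤ) (c : C) : IsIntegral (Fix e) c :=
  quad (y := σ e c) (show σ e _ = _ by simp [σσ, add_comm]) (show σ e _ = _ by simp [σσ, mul_comm])

noncomputable def R : Subring (Matrix (Fin 2) (Fin 2) C) where
  carrier := {m | m 0 0 ∈ Fix 1 ∧ m 1 1 ∈ Fix 0 ∧ m 1 0 = 0}
  mul_mem' {s t} a b := by
    simp only [Set.mem_ofPred_eq, Matrix.mul_apply, Fin.sum_univ_two, a.2.2, b.2.2]
    exact ⟨by simpa using mul_mem a.1 b.1, by simpa using mul_mem a.2.1 b.2.1, by simp⟩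
  one_mem' := ⟨one_mem _, one_mem _, rfl⟩
  add_mem' a b := ⟨add_mem a.1 b.1, add_mem a.2.1 b.2.1, by simp [a.2.2, b.2.2]⟩
  zero_mem' := ⟨zero_mem _, zero_mem _, rfl⟩
  neg_mem' a := ⟨neg_mem a.1, neg_mem a.2.1, by simp [a.2.2]⟩

noncomputable def dg (i : Fin 2) : R →+* C where
  toFun m := m.1 i i
  map_one' := by simp
  map_mul' s t := by fin_cases i <;> simp [Matrix.mul_apply, s.2.2.2, t.2.2.2]
  map_zero' := rfl
  map_add' _ _ := rfl
noncomputable def κ : R →+ C := ⟨⟨fun m => m.1 0 1, rfl⟩, fun _ _ => rfl⟩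

lemma tri : Tri (Fix 1) (Fix 0) (dg 0) (dg 1) κ := by
  refine ⟨fun s t => show (s.1 * t.1) 0 1 = s.1 0 0 * t.1 0 1 + s.1 0 1 * t.1 1 1 by
    simp [Matrix.mul_apply], fun s t a b c => Subtype.ext ?_,
    fun s => s.2.1, fun s => s.2.2.1, fun a ha c b hb => ⟨⟨!![a, c; 0, b], ha, hb, rfl⟩, rfl, rfl, rfl⟩⟩
  ext1 i j
  fin_cases i <;> fin_cases j
  exacts [a, b, s.2.2.2.trans t.2.2.2.symm, c]

noncomputable def op' {S : Type} [Ring S] (p : S →+* C) : Sᵐᵒᵖ →+* C :=
  p.fromOpposite fun _ _ => mul_comm _ _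
noncomputable def op2 {S : Type} [Ring S] (k : S →+ C) : Sᵐᵒᵖ →+ C :=
  ⟨⟨fun s => k s.unop, map_zero k⟩, fun _ _ => map_add k _ _⟩
lemma op_mul {S : Type} [Ring S] {p q : S →+* C} {k : S →+ C}
    (h : ∀ s t, k (s * t) = p s * k t + k s * q t) (s t : Sᵐᵒᵖ) :
    op2 k (s * t) = op' q s * op2 k t + op2 k s * op' p t :=
  (h t.unop s.unop).trans (by rw [add_comm, mul_comm, mul_comm (p _)]; rfl)

theorem result : ∃ (R : Type) (_ : Ring R), LeftBasic R ∧ LeftBasic Rᵐᵒᵖ ∧ ¬ FNoetherian R := by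
  refine ⟨R, inferInstance, tri.basic (int_fix 1), Tri.basic (A := Fix 0) (B := Fix 1) (p := op' (dg 1))
    (q := op' (dg 0)) (k := op2 κ)
    ⟨op_mul tri.mul, fun s t a b c =>
      MulOpposite.unop_injective (tri.inj _ _ c b a), fun s => tri.hq _, fun s => tri.hp _,
      fun a ha c b hb => ?_⟩ (int_fix 0), fun H => ?_⟩
  · obtain ⟨s, h1, h2, h3⟩ := tri.ex b hb c a ha
    exact ⟨MulOpposite.op s, h3, h2, h1⟩
  obtain ⟨u, u1, u2, u3⟩ := tri.ex 0 (zero_mem _) 1 0 (zero_mem _)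
  obtain ⟨v, v1, -⟩ := tri.ex (X 0 + X 1) (show σ 1 _ = _ by simp [σ, add_comm]) 0 0 (zero_mem _)
  obtain ⟨w, w1, -⟩ := tri.ex (X 0 * X 1) (show σ 1 _ = _ by simp [σ, mul_comm]) 0 0 (zero_mem _)
  obtain ⟨S, hS, n1, n2⟩ := H {u, v, w} (Set.toFinite _)
  let p := (dg 0).comp S.subtype
  let q := (dg 1).comp S.subtype
  let k := κ.comp S.subtype.toAddMonoidHom
  have i1 : ∀ b ∈ (op' q).range, IsIntegral p.range b := by
    rintro _ ⟨b, rfl⟩
    exact integ p q k (fun s t => tri.mul _ _) ⟨u, hS (by simp)⟩ u2 u1 u3 b.unop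
  have i2 : ∀ a ∈ p.range, IsIntegral (op' q).range a := by
    rintro _ ⟨a, rfl⟩
    exact integ (op' q) (op' p) (op2 k)
      (op_mul fun s t => tri.mul _ _) (MulOpposite.op ⟨u, hS (by simp)⟩)
      u2 u3 u1 (MulOpposite.op a)
  have s1 : ∀ n : ℤ, IsIntegral p.range (X n : C) → IsIntegral p.range (X (1 - n) : C) := fun n h => by
    simpa [σ] using stab (σ 1) (by rintro _ ⟨a, rfl⟩; exact tri.hp _) h
  have s0 : ∀ n : ℤ, IsIntegral p.range (X n : C) → IsIntegral p.range (X (-n) : C) := fun n h => by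
    simpa [σ] using tr i1 (stab (σ 0) (by rintro _ ⟨a, rfl⟩; exact tri.hq _) (tr i2 h))
  have all : ∀ n : ℕ, IsIntegral p.range (X (n : ℤ) : C) := fun n => by
    induction n with
    | zero => exact quad (y := X 1) ⟨⟨v, hS (by simp)⟩, v1⟩ ⟨⟨w, hS (by simp)⟩, w1⟩
    | succ n ih => simpa [add_comm] using s1 _ (s0 _ ih)
  let φ : ℕ → C →+* C := fun n => (aeval fun i : ℤ => if i < n then (0 : C) else X i).toRingHom
  refine not_strictMono_of_wellFoundedGT
    (fun n => (RingHom.ker (φ n)).comap (algebraMap p.range C)) (strictMono_nat_of_lt_succ fun n => ?_)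
  have := RingHom.ker_isPrime (φ n)
  refine Ideal.comap_lt_comap_of_integral_mem_sdiff (fun c hc => ?_)
    ⟨by simp [φ, RingHom.mem_ker], by simp [φ, RingHom.mem_ker]⟩ (all n)
  have e : (φ (n + 1)).comp (φ n) = φ (n + 1) := by
    ext i : 1
    · exact RingHom.ext_int _ _
    · by_cases h : i < n
      · simp [φ, h, h.le]
      · simp [φ, h]
  rw [RingHom.mem_ker, ← e, RingHom.comp_apply, RingHom.mem_ker.1 hc, map_zero]

end Pool.Agent.Results.MP_42b5d3_al.Yes
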